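import Pool.Agent.N38.ISO.Scn

/-!
# Isomorphism testing versus the number of isomorphism types: the assertion of Q1 fails

`K` is the class of finite linear orders and `J` the class of finite sets with a distinguished
subset of at most one element. `K` has one isomorphism type in every size, so the machine which
says yes after one step tests isomorphism in `K`; `J` has at most two isomorphism types in every
size, but every test for `J` has to look at its input and needs at least `n` steps, for Turing
machines as well as for arbitrary non-uniform decision trees reading one table entry per step.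
No function of the running time of that test for `K`, in particular no polynomial, bounds the
running time of any test for `J`. The definitions are in `Pool/Agent/N38/ISO/Def.lean`.
-/

set_option autoImplicit false

open Filter Pool.Agent.N38.ISO

namespace Pool.Agent.Results.MP_28ce77_lc.Refuted

/-- The negated form of Q1, unconditionally, for multitape Turing machines and for the probe
model, with the same two first-order definable classes. -/
theorem result :
    ∃ J K : FOClass,
      (∀ n, typ K n = 1) ∧ (∀ n, typ J n ≤ 2) ∧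
      (∃ q : Polynomial ℝ, ∀ n, (typ J n : ℝ) ≤ q.eval (typ K n : ℝ)) ∧
      -- multitape Turing machines: the negated form of Q1
      (∀ p : Polynomial ℝ, ∃ α : TM, IsTest K α ∧
        ¬ ∃ β : TM, IsTest J β ∧
          ∀ᶠ n : ℕ in atTop, (worst J β n : ℝ) ≤ p.eval (worst K α n : ℝ)) ∧
      -- the running times
      (∃ α : TM, IsTest K α ∧ ∀ n, worst K α n = 1) ∧
      (∀ β : TM, IsTest J β → ∀ n, 1 ≤ n → n < worst J β n) ∧
      (∃ β : TM, IsTest J β ∧ ∀ n, worst J β n ≤ 4 * n + 4) ∧
      -- the probe model: the negated form of Q1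
      (∀ p : Polynomial ℝ, ∃ T : ∀ n, Tree K.σ n, IsProbeTest K T ∧
        ¬ ∃ S : ∀ n, Tree J.σ n, IsProbeTest J S ∧
          ∀ᶠ n : ℕ in atTop, (probes J S n : ℝ) ≤ p.eval (probes K T n : ℝ)) ∧
      (∃ T : ∀ n, Tree K.σ n, IsProbeTest K T ∧ ∀ n, probes K T n = 0) ∧
      (∀ S : ∀ n, Tree J.σ n, IsProbeTest J S → ∀ n, n ≤ probes J S n) := by
  refine ⟨Uni, Ord, typ_ord, typ_uni_le, ⟨Polynomial.C 2, fun n => ?_⟩, fun p => ?_,
    ⟨yes, yes_test, yes_worst⟩, fun β hβ n hn => uni_lower hβ hn, ⟨scan, scan_test, scan_worst⟩,
    fun p => ?_, ⟨yesTree, yesTree_test, yesTree_probes⟩, fun S hS n => uni_probes hS n⟩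
  · rw [Polynomial.eval_C]
    exact_mod_cast typ_uni_le n
  · refine ⟨yes, yes_test, ?_⟩
    rintro ⟨β, hβ, h⟩
    obtain ⟨m, hm⟩ := exists_nat_ge (p.eval 1)
    obtain ⟨n, hn, h1, h2⟩ := (h.and ((eventually_ge_atTop m).and (eventually_ge_atTop 1))).exists
    rw [yes_worst] at hn
    have h3 := uni_lower hβ h2
    have h4 : (n : ℝ) < (worst Uni β n : ℝ) := by exact_mod_cast h3
    have h5 : (m : ℝ) ≤ (n : ℝ) := by exact_mod_cast h1
    simp only [Nat.cast_one] at hn
    linarith
  · refine ⟨yesTree, yesTree_test, ?_⟩
    rintro ⟨S, hS, h⟩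
    obtain ⟨m, hm⟩ := exists_nat_gt (p.eval 0)
    obtain ⟨n, hn, h1⟩ := (h.and (eventually_ge_atTop m)).exists
    rw [yesTree_probes] at hn
    have h3 := uni_probes hS n
    have h4 : (n : ℝ) ≤ (probes Uni S n : ℝ) := by exact_mod_cast h3
    have h5 : (m : ℝ) ≤ (n : ℝ) := by exact_mod_cast h1
    simp only [Nat.cast_zero] at hn
    linarith

end Pool.Agent.Results.MP_28ce77_lc.Refuted
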